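import Mathlib

/-! # A non-zero categorical (quasi)product monoid which is finitely generated as a monoid -/

namespace Pool.Agent.Results.MP_eefcda_al.FinitelyGeneratedExample

/-- The structure of a categorical quasiproduct (CQP) monoid on a monoid `M`. -/
structure CQP (M : Type*) [Monoid M] where
  /-- the first projection -/
  p₁ : M
  /-- the second projection -/
  p₂ : M
  /-- the pairing -/
  sig : M → M → M
  p₁_sig : ∀ a b, p₁ * sig a b = a
  p₂_sig : ∀ a b, p₂ * sig a b = b
  sig_mul : ∀ a b c, sig a b * c = sig (a * c) (b * c)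

namespace CQP

variable {M : Type*} [Monoid M] (S : CQP M)

/-- `a ⊗ 1` -/
def th (a : M) : M := S.sig (a * S.p₁) S.p₂
def D : M := S.sig 1 1
def tau : M := S.sig S.p₂ S.p₁
def al : M := S.sig (S.p₁ * S.p₁) (S.sig (S.p₂ * S.p₁) S.p₂)
def be : M := S.sig (S.sig S.p₁ (S.p₁ * S.p₂)) (S.p₂ * S.p₂)

theorem p₁_sig' (a b c : M) : S.p₁ * (S.sig a b * c) = a * c := by rw [← mul_assoc, S.p₁_sig]
theorem p₂_sig' (a b c : M) : S.p₂ * (S.sig a b * c) = b * c := by rw [← mul_assoc, S.p₂_sig]

theorem th_mul (a b : M) : S.th (a * b) = S.th a * S.th b := by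
  simp only [th, S.sig_mul, S.p₁_sig, S.p₂_sig, mul_assoc]

theorem th_th (a : M) : S.th (S.th a) = S.be * (S.th a * S.al) := by
  simp only [th, be, al, S.sig_mul, S.p₁_sig, S.p₂_sig, mul_assoc]

theorem sig_eq (a b : M) : S.sig a b = S.th a * (S.tau * (S.th b * S.tau)) * S.D := by
  simp only [th, tau, D, S.sig_mul, S.p₁_sig, S.p₂_sig, mul_assoc, mul_one]

open Classical in
/-- the six basic elements -/
noncomputable def G : Finset M := {S.p₁, S.p₂, S.D, S.tau, S.al, S.be}

open Classical in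
/-- the generators -/
noncomputable def gens : Finset M := S.G ∪ S.G.image S.th ∪ {S.sig S.p₁ S.p₂}

/-- the submonoid generated by the generators -/
noncomputable def sub : Submonoid M := Submonoid.closure (S.gens : Set M)

theorem mem_G {g : M} (h : g ∈ S.G) : g ∈ S.sub := by
  classical
  refine Submonoid.subset_closure ?_
  simp only [gens, Finset.coe_union, Set.mem_union, Finset.mem_coe]
  exact Or.inl (Or.inl h)

theorem mem_thG {g : M} (h : g ∈ S.G) : S.th g ∈ S.sub := by
  classical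
  refine Submonoid.subset_closure ?_
  simp only [gens, Finset.coe_union, Set.mem_union, Finset.mem_coe]
  exact Or.inl (Or.inr (Finset.mem_image_of_mem _ h))

theorem mem_e : S.sig S.p₁ S.p₂ ∈ S.sub := by
  classical
  refine Submonoid.subset_closure ?_
  simp [gens]

theorem th_one : S.th 1 = S.sig S.p₁ S.p₂ := by simp [th]

theorem p₁_mem : S.p₁ ∈ S.sub := S.mem_G (by simp [G])
theorem p₂_mem : S.p₂ ∈ S.sub := S.mem_G (by simp [G])
theorem D_mem : S.D ∈ S.sub := S.mem_G (by simp [G])
theorem tau_mem : S.tau ∈ S.sub := S.mem_G (by simp [G])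
theorem al_mem : S.al ∈ S.sub := S.mem_G (by simp [G])
theorem be_mem : S.be ∈ S.sub := S.mem_G (by simp [G])

theorem th_th_mem {a : M} (h : S.th a ∈ S.sub) : S.th (S.th a) ∈ S.sub := by
  rw [th_th]
  exact S.sub.mul_mem S.be_mem (S.sub.mul_mem h S.al_mem)

theorem th_mem {a : M} (h : a ∈ S.sub) : S.th a ∈ S.sub := by
  classical
  induction h using Submonoid.closure_induction with
  | mem x hx =>
    simp only [gens, Finset.coe_union, Set.mem_union, Finset.mem_coe, Finset.mem_image,
      Finset.mem_singleton] at hx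
    rcases hx with (hx | ⟨g, hg, rfl⟩) | rfl
    · exact S.mem_thG hx
    · exact S.th_th_mem (S.mem_thG hg)
    · rw [← S.th_one]
      exact S.th_th_mem (by rw [S.th_one]; exact S.mem_e)
  | one => rw [S.th_one]; exact S.mem_e
  | mul x y _ _ hx hy => rw [S.th_mul]; exact S.sub.mul_mem hx hy

theorem sig_mem {a b : M} (ha : a ∈ S.sub) (hb : b ∈ S.sub) : S.sig a b ∈ S.sub := by
  rw [S.sig_eq]
  exact S.sub.mul_mem (S.sub.mul_mem (S.th_mem ha)
    (S.sub.mul_mem S.tau_mem (S.sub.mul_mem (S.th_mem hb) S.tau_mem))) S.D_mem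

/-- the submonoid as a CQP monoid -/
noncomputable def restr : CQP S.sub where
  p₁ := ⟨S.p₁, S.p₁_mem⟩
  p₂ := ⟨S.p₂, S.p₂_mem⟩
  sig a b := ⟨S.sig a.1 b.1, S.sig_mem a.2 b.2⟩
  p₁_sig a b := Subtype.ext (S.p₁_sig _ _)
  p₂_sig a b := Subtype.ext (S.p₂_sig _ _)
  sig_mul a b c := Subtype.ext (S.sig_mul _ _ _)

end CQP

/-- the maps from `ℕ` to `ℕ` with the pairing given by a bijection `ℕ × ℕ → ℕ` -/
def full : CQP (Function.End ℕ) where
  p₁ := (fun n => n.unpair.1 : ℕ → ℕ)
  p₂ := (fun n => n.unpair.2 : ℕ → ℕ)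
  sig a b := (fun n => Nat.pair (a n) (b n) : ℕ → ℕ)
  p₁_sig a b := by
    funext n
    change (Nat.unpair (Nat.pair (a n) (b n))).1 = a n
    rw [Nat.unpair_pair]
  p₂_sig a b := by
    funext n
    change (Nat.unpair (Nat.pair (a n) (b n))).2 = b n
    rw [Nat.unpair_pair]
  sig_mul a b c := rfl

/-- There is a categorical product monoid (`sig p₁ p₂ = 1`) with at least two elements which is finitely generated
as a monoid; moreover every CQP monoid has a finite subset that generates a submonoid containing the two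
projections and closed under the pairing. -/
theorem result :
    (∃ (M : Type) (_ : Monoid M) (S : CQP M), Nontrivial M ∧ S.sig S.p₁ S.p₂ = 1 ∧
      ∃ F : Finset M, Submonoid.closure (F : Set M) = ⊤) ∧
    ∀ (N : Type) [Monoid N] (S : CQP N), ∃ F : Finset N,
      S.p₁ ∈ Submonoid.closure (F : Set N) ∧ S.p₂ ∈ Submonoid.closure (F : Set N) ∧
      ∀ a ∈ Submonoid.closure (F : Set N), ∀ b ∈ Submonoid.closure (F : Set N),
        S.sig a b ∈ Submonoid.closure (F : Set N) := by
  refine ⟨⟨full.sub, inferInstance, full.restr, ?_, ?_, ?_⟩, ?_⟩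
  · refine ⟨⟨full.p₁, full.p₁_mem⟩, ⟨full.p₂, full.p₂_mem⟩, ?_⟩
    intro h
    have h1 : full.p₁ = full.p₂ := congrArg Subtype.val h
    have h2 : (Nat.unpair (Nat.pair 0 1)).1 = (Nat.unpair (Nat.pair 0 1)).2 :=
      congrFun h1 (Nat.pair 0 1)
    rw [Nat.unpair_pair] at h2
    simp at h2
  · refine Subtype.ext ?_
    funext n
    change Nat.pair (Nat.unpair n).1 (Nat.unpair n).2 = n
    exact Nat.pair_unpair n
  · have h : (Monoid.FG full.sub) := by
      rw [Monoid.fg_iff_submonoid_fg]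
      exact ⟨full.gens, rfl⟩
    obtain ⟨F, hF⟩ := (Monoid.fg_def).1 h
    exact ⟨F, hF⟩
  · intro N _ S
    exact ⟨S.gens, S.p₁_mem, S.p₂_mem, fun a ha b hb => S.sig_mem ha hb⟩

end Pool.Agent.Results.MP_eefcda_al.FinitelyGeneratedExample
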